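import Pool.Agent.U508.TD.Coh
import Pool.Agent.U508.TD.SUPK
import Pool.Agent.U508.TD.POT
import Pool.Agent.U508.TD.MOM

/-!
# Displacing particles in the dilute Bose gas: off-diagonal order of many particles at all distances

`N` bosons on the torus of side `L` in dimension `3` with the Hamiltonian

`∑_i (-μ Δ_i) + ∑_i (∫ K - K *)_i + ∑_{i<j} v(|x_i - x_j|)`, `μ = 1 / (2 m)`,

`v ≥ 0` of finite range with `0 < ∫ v(|z|) dz < ∞`, and a hopping kernel `K ≥ 0` of total strength at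
most `c₀ ρ^(3/2)` with `K(z) ≥ c ρ^(7/2 + 1/3024) (1 + √ρ |z|)^(-(3 + σ))`. In the thermodynamic limit
`N / L³ = ρ`, for small `ρ`, every state `Ψ` near the ground state has the following property. Moving
any `k` particles by arbitrary vectors changes `Ψ` by at most `4 k ρ^(1/3024)` (square of the norm), at
all distances and uniformly in `L`: this is off-diagonal long-range order of the `k` particle density
matrices, for all `k` much smaller than `ρ^(-1/3024)`. On the other hand for every particle there is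
a vector by which it can be moved so that `Ψ` changes by at least `c₀ √ρ`: the order of Lee, Huang and
Yang.

Idea: the square of the norm of `Ψ(x + h) - Ψ(x)` is `∑_M |e^{i ∑ M_j h_j} - 1|² |Ψ^(M)|²`, and the terms
with `M_j = 0` for all displaced particles vanish; by symmetry every particle has momentum `0` with
probability `condN Ψ / N`, for which the two-sided bounds are proved in `Pool/Agent/U508/TD/Two.lean`
(`TwoSidedDepletion`). The mean over the displacements of one particle gives the second part.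

The packages of the comparison of the two settings are by helpers 606, 789, 873, 123, 59, 535, 333 and
212 (`Pool/Agent/U508/TD`).
-/

set_option autoImplicit false

open MeasureTheory
open scoped ENNReal

namespace Pool.Agent.Results.MP_4952d6_mp.CoherentDisplacements

open Pool.Agent.W761.CB

/-- **Displacements of particles.** The definitions are those of the starting results for this
problem (`Pool/Agent/W761/CB/Defs.lean`): `Tor 3 L` is the torus of side `L`, `el` the Euclidean norm,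
`enN μ K v Ψ` the energy, `IsWf2` (`IsWf`) the (bounded) symmetric wave functions of norm one. In the
first statement the particles in `S` are displaced by the vectors `h i`. -/
theorem result (μ σ c R₀ : ℝ) (hμ : 0 < μ) (hσ : 0 < σ) (hσ3 : σ < 3) (hc : 0 < c)
    (v : ℝ → ℝ≥0∞) (hv : Measurable v) (hvR : ∀ r, R₀ < r → v r = 0)
    (hv0 : ∫⁻ z : Fin 3 → ℝ, v (el z) ≠ 0) (hvf : ∫⁻ z : Fin 3 → ℝ, v (el z) ≠ ⊤) :
    ∃ c₀ ρ₀ : ℝ, 0 < c₀ ∧ 0 < ρ₀ ∧ ∀ ρ : ℝ, 0 < ρ → ρ ≤ ρ₀ →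
      ∃ c₁ L₀ : ℝ, 0 < c₁ ∧
      ∀ (L : ℝ) [Fact (0 < L)] (K : (Fin 3 → ℝ) → ℝ≥0∞), L₀ ≤ L → Measurable K →
      ∫⁻ z, K z ≤ ENNReal.ofReal (c₀ * (ρ * √ρ)) →
      (∀ z, ENNReal.ofReal (c * ρ ^ (7 / 2 + 1 / 3024 : ℝ) * (1 + √ρ * el z) ^ (-(3 + σ))) ≤ K z) →
      ∀ N : ℕ, (N : ℝ) = ρ * L ^ 3 → ∀ Ψ : (Fin N → Tor 3 L) → ℂ, IsWf2 Ψ →
      (∀ Φ : (Fin N → Tor 3 L) → ℂ, IsWf Φ →
        enN (ENNReal.ofReal μ) K v Ψ ≤ enN (ENNReal.ofReal μ) K v Φ +
          ENNReal.ofReal (c₁ * L ^ (3 - σ))) →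
      (∀ (S : Finset (Fin N)) (h : Fin N → Tor 3 L), (∀ i ∉ S, h i = 0) →
        ∫⁻ x, ‖Ψ (x + h) - Ψ x‖ₑ ^ 2 ≤ ENNReal.ofReal (4 * S.card * ρ ^ (1 / 3024 : ℝ))) ∧
      ∀ i : Fin N, ∃ z : Tor 3 L, ENNReal.ofReal (c₀ * √ρ) ≤
        ∫⁻ x, ‖Ψ (Function.update x i (x i + z)) - Ψ x‖ₑ ^ 2 := by
  obtain ⟨c₀, C₀, ρ₀, hc₀, -, hρ₀, H⟩ := Pool.Agent.U508.TD.A.two Pool.Agent.U508.TD.scale
    (Pool.Agent.U508.TD.kin Pool.Agent.U508.TD.scale Pool.Agent.U508.TD.pars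
      Pool.Agent.U508.TD.supk)
    (Pool.Agent.U508.TD.pot Pool.Agent.U508.TD.scale)
    (Pool.Agent.U508.TD.mom Pool.Agent.U508.TD.scale) Pool.Agent.U508.TD.SYM.sym
    μ σ c R₀ hμ hσ hσ3 hc v hv hvR hv0 hvf
  refine ⟨c₀, ρ₀, hc₀, hρ₀, fun ρ hρ hρ1 => ?_⟩
  obtain ⟨c₁, L₀, hc₁, H⟩ := H ρ hρ hρ1
  refine ⟨c₁, L₀, hc₁, ?_⟩
  intro L _ K hL hKm hKs hKl N hN Ψ hΨ hnear
  obtain ⟨h1, h2, -⟩ := H L K hL hKm hKs hKl N hN Ψ hΨ hnear
  have hL0 : 0 < L := Fact.out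
  have hN0 : (0 : ℝ) < N := by rw [hN]; positivity
  have hw : ∀ i, 1 - Pool.Agent.U508.TD.C.w0 (Pool.Agent.U508.TD.dn L Ψ) i ≤
      ρ ^ (1 / 3024 : ℝ) ∧
      c₀ * √ρ ≤ 1 - Pool.Agent.U508.TD.C.w0 (Pool.Agent.U508.TD.dn L Ψ) i := by
    intro i
    have h3 := Pool.Agent.U508.TD.C.w0_eq hΨ i
    rw [← h3] at h1 h2
    constructor
    · have h4 : (1 - ρ ^ (1 / 3024 : ℝ)) ≤
          Pool.Agent.U508.TD.C.w0 (Pool.Agent.U508.TD.dn L Ψ) i :=
        le_of_mul_le_mul_right (by linarith) hN0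
      linarith
    · have h4 : Pool.Agent.U508.TD.C.w0 (Pool.Agent.U508.TD.dn L Ψ) i ≤ 1 - c₀ * √ρ :=
        le_of_mul_le_mul_right (by linarith) hN0
      linarith
  constructor
  · intro S h hS
    refine (Pool.Agent.U508.TD.C.upper_disp hΨ S h hS).trans (ENNReal.ofReal_le_ofReal ?_)
    calc ∑ i ∈ S, 4 * (1 - Pool.Agent.U508.TD.C.w0 (Pool.Agent.U508.TD.dn L Ψ) i)
        ≤ ∑ _i ∈ S, 4 * ρ ^ (1 / 3024 : ℝ) :=
          Finset.sum_le_sum fun i _ => mul_le_mul_of_nonneg_left (hw i).1 (by norm_num)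
      _ = 4 * S.card * ρ ^ (1 / 3024 : ℝ) := by
          rw [Finset.sum_const, nsmul_eq_mul]; ring
  · intro i
    have hpos : 0 < 1 - Pool.Agent.U508.TD.C.w0 (Pool.Agent.U508.TD.dn L Ψ) i :=
      lt_of_lt_of_le (by positivity) (hw i).2
    obtain ⟨z, hz⟩ := Pool.Agent.U508.TD.C.lower_disp hΨ i hpos
    exact ⟨z, (ENNReal.ofReal_le_ofReal (hw i).2).trans hz⟩

end Pool.Agent.Results.MP_4952d6_mp.CoherentDisplacements
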