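import Pool.Agent.U327.BG.FinG

/-!
# Complete condensation on all multiples of the healing length, all potentials of the problem

`N` bosons on the torus of side `L` in dimension `n ≥ 3` with the Hamiltonian of the problem
(`n = 3`, `μ = 1 / (2 m)`),

`H = ∑_i (-μ Δ_i) + ∑_{i<j} v(|x_i - x_j|)`,

where `v` has values in `[0, ∞]`, is arbitrary at distances up to `R₀` (hard core) and integrable
outside the ball of radius `R₀`; no other term is added.  The healing length at the density `ρ` is of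
order `ρ^(-1/2)`.  For all `ε, Λ > 0` and small `ρ`, uniformly in `L ≥ ρ^(-1/2)` (in particular in
the thermodynamic limit at fixed `ρ`), the ground state and all states with nearly the same energy
are condensed up to the fraction `ε` on the length scale `ℓ = Λ ρ^(-1/2)`.
-/

set_option autoImplicit false

open MeasureTheory
open scoped ENNReal

namespace Pool.Agent.Results.MP_4952d6_mp.LocalCondensation

open Pool.Agent.W761.CB Pool.Agent.W761.CC Pool.Agent.Y656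

/-- **Complete condensation on all multiples of the healing length.**  `n ≥ 3`, `μ > 0`, and `v` is a
measurable pair potential with values in `[0, ∞]`, not zero almost everywhere, integrable outside the
ball of radius `R₀` and arbitrary inside.  For all `ε, Λ > 0` there are `ρ₀, δ > 0` such that for all
`ρ ∈ (0, ρ₀]`, with `ℓ = Λ ρ^(-1/2)`, all `L ≥ ρ^(-1/2)`, all `N` with `ρ / 2 ≤ N / L^n ≤ ρ` and all
symmetric wave functions `Ψ` of `N` particles with norm one which minimise the energy up to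
`δ ρ^2 L^n` (for instance the ground state), with one particle density matrix `γ`:
`∫ γ(x, x + z) dx ≥ (1 - ε) N` for all `z` with `|z_c| ≤ ℓ` for all `c`;
`∑_B |B|^(-1) ∫_B ∫_B γ(x, y) dx dy ≥ (1 - ε) N` for all `q ≥ 1` with `L / q ≤ ℓ`,
where `B` runs over the `q^n` cubes of side `L / q`; and if `L ≤ ℓ`, then
`L^(-n) ∫∫ γ(x, y) dx dy ≥ (1 - ε) N`. -/
theorem result (n : ℕ) (μ R₀ : ℝ) (hn : 3 ≤ n) (hμ : 0 < μ) (v : ℝ → ℝ≥0∞) (hv : Measurable v)
    (hvt : ∫⁻ z in {z : Fin n → ℝ | R₀ < el z}, v (el z) ≠ ⊤)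
    (hv0 : ∫⁻ z : Fin n → ℝ, v (el z) ≠ 0) (ε Λ : ℝ) (hε : 0 < ε) (hΛ : 0 < Λ) :
    ∃ ρ₀ δ : ℝ, 0 < ρ₀ ∧ 0 < δ ∧ ∀ ρ ℓ : ℝ, 0 < ρ → ρ ≤ ρ₀ → ℓ = Λ * ρ ^ (-(1 / 2) : ℝ) →
      ∀ (L : ℝ) [Fact (0 < L)], ρ ^ (-(1 / 2) : ℝ) ≤ L →
      ∀ N : ℕ, ρ / 2 * L ^ n ≤ N → (N : ℝ) ≤ ρ * L ^ n →
      ∀ Ψ : (Fin N → Tor n L) → ℂ, IsWf2 Ψ →
        (∀ Φ : (Fin N → Tor n L) → ℂ, IsWf Φ → enN (ENNReal.ofReal μ) (fun _ => 0) v Ψ ≤
          enN (ENNReal.ofReal μ) (fun _ => 0) v Φ + ENNReal.ofReal (δ * ρ ^ 2 * L ^ n)) →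
        (∀ z : Fin n → ℝ, (∀ c, |z c| ≤ ℓ) → (1 - ε) * N ≤ odN Ψ z) ∧
        (∀ q : ℕ, 1 ≤ q → L / q ≤ ℓ → (1 - ε) * N ≤ locN q Ψ) ∧
        (L ≤ ℓ → (1 - ε) * N ≤ condN Ψ) :=
  Pool.Agent.U327.BG.offG n μ R₀ v hn hμ hv hvt hv0 ε Λ hε hΛ

end Pool.Agent.Results.MP_4952d6_mp.LocalCondensation
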