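import Pool.Agent.U327.BG.FinM

/-!
# The tail of the momentum distribution of the dilute Bose gas in the thermodynamic limit

`N` bosons on the torus of side `L` in dimension `n ≥ 3` with the Hamiltonian of the problem
(`n = 3`, `μ = 1 / (2 m)`),

`H = ∑_i (-μ Δ_i) + ∑_{i<j} v(|x_i - x_j|)`,

where `v` has values in `[0, ∞]` (hard cores are allowed) and finite range; no other term is added.
In a ground state the depletion of the condensate is expected to consist of `c ρ^(1/2) N` particles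
with momenta of order `ρ^(1/2)`.  The kinetic energy, of order `ρ N`, shows that at most `C ρ / p² N`
particles have a momentum above `p`: this is no information at `p = ρ^(1/2)`.  Here this bound is
improved by a power `ρ^δ` of the density, uniformly in `L ≥ ρ^(-1/2)`, so in the thermodynamic limit:
at most `C (ρ^(1 + δ) / p² + ρ^(2 δ)) N` particles have a momentum above `p`.  In particular at most
`C' ρ^δ N` particles have momenta of order `ρ^(1/2)` or more, and all but `C' ρ^(δ / 2) N` particles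
have momenta below `ρ^(1/2 + δ / 4)`: what is left of the question of condensation are the momenta
much below the inverse healing length.  For `n = 3`: `δ = 1 / 126`.
-/

set_option autoImplicit false

open MeasureTheory
open scoped ENNReal

namespace Pool.Agent.Results.MP_4952d6_mp.MomentumTail

open Pool.Agent.W761.CB Pool.Agent.W761.CC Pool.Agent.Y656 Pool.Agent.U327.BG

/-- **The tail of the momentum distribution.**  `n ≥ 3`, `μ > 0`, `m = n^3 + 4 n^2`, `δ = 1 / (2 m)`,
and `v` is a measurable pair potential with values in `[0, ∞]` of finite range `R₀`, not zero almost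
everywhere.  There are `ρ₀ ∈ (0, 1)` and `C` such that for all `ρ ∈ (0, ρ₀]`, all `L ≥ ρ^(-1/2)`, all
`N` with `ρ / 2 ≤ N / L^n ≤ ρ`, all symmetric wave functions `Ψ` of `N` particles with norm one
which minimise the energy up to `ρ^(2 + δ) L^n` (for instance the ground state) and all `p > 0`,
at most `C (ρ^(1 + δ) / p^2 + ρ^(2 δ)) N` particles have a momentum `2 π k / L` with
`|2 π k_c / L| ≥ p` for some `c`. -/
theorem result (n m : ℕ) (μ R₀ δ : ℝ) (hn : 3 ≤ n) (hm : m = n ^ 3 + 4 * n ^ 2) (hμ : 0 < μ)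
    (hδ : δ = 1 / (2 * m)) (v : ℝ → ℝ≥0∞) (hv : Measurable v)
    (hvR : ∀ r, R₀ < r → v r = 0) (hv0 : ∫⁻ z : Fin n → ℝ, v (el z) ≠ 0) :
    ∃ ρ₀ C : ℝ, 0 < ρ₀ ∧ ρ₀ < 1 ∧ 0 < C ∧ ∀ ρ : ℝ, 0 < ρ → ρ ≤ ρ₀ →
      ∀ (L : ℝ) [Fact (0 < L)], ρ ^ (-(1 / 2) : ℝ) ≤ L →
      ∀ N : ℕ, ρ / 2 * L ^ n ≤ N → (N : ℝ) ≤ ρ * L ^ n →
      ∀ Ψ : (Fin N → Tor n L) → ℂ, IsWf2 Ψ →
        (∀ Φ : (Fin N → Tor n L) → ℂ, IsWf Φ → enN (ENNReal.ofReal μ) (fun _ => 0) v Ψ ≤
          enN (ENNReal.ofReal μ) (fun _ => 0) v Φ + ENNReal.ofReal (ρ ^ (2 + δ) * L ^ n)) →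
        ∀ p : ℝ, 0 < p →
          ∑' k : {k : Fin n → ℤ // ∃ c, p ≤ |2 * Real.pi * k c / L|}, momN Ψ k.1 ≤
            ENNReal.ofReal (C * (ρ ^ (1 + δ) / p ^ 2 + ρ ^ (2 * δ)) * N) :=
  momM n m μ R₀ δ hn hm hμ hδ v hv hvR hv0

end Pool.Agent.Results.MP_4952d6_mp.MomentumTail
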