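import Pool.Agent.U508.TD.Two
import Pool.Agent.U508.TD.SCALE
import Pool.Agent.U508.TD.PARS
import Pool.Agent.U508.TD.SUPK
import Pool.Agent.U508.TD.KIN
import Pool.Agent.U508.TD.POT
import Pool.Agent.U508.TD.SYM
import Pool.Agent.U508.TD.MOM

/-!
# Two-sided bounds on the depletion of the dilute Bose gas with a weak long-range hopping

`N` bosons on the torus of side `L` in dimension `3` with the Hamiltonian

`∑_i (-μ Δ_i) + ∑_i (∫ K - K *)_i + ∑_{i<j} v(|x_i - x_j|)`, `μ = 1 / (2 m)`,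

with a pair potential `v ≥ 0` of finite range with `0 < ∫ v(|z|) dz < ∞`, and a hopping kernel `K ≥ 0`
whose total strength is at most `c₀ ρ^(3/2)` and which is at least
`c ρ^(7/2 + 1/3024) (1 + √ρ |z|)^(-(3 + σ))` (the total strength of this smallest kernel is a constant
times `ρ^(2 + 1/3024)`). In the thermodynamic limit `N / L³ = ρ`, for small `ρ`, every state near the
ground state is a complete condensate, and its depletion is at least of the order of Lee, Huang and
Yang:

`c₀ √ρ N ≤ N - (number of particles in the condensate) ≤ ρ^(1/3024) N`,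

and at least `c₀ √ρ N` particles have a nonzero momentum of size at most `√(C₀ ρ)`.

Idea: the hopping changes the energy of every state by at most `2 c₀ ρ^(3/2) N`, so a state near the
ground state for the Hamiltonian with hopping is near the ground state in the sense of the starting
result `DepletionLowerBound`; `SoftWeakHopping` gives the other bound. The work is the comparison of
the two settings: Fourier series on the unit torus and all square integrable functions there,
difference quotients on the torus of side `L` and bounded symmetric functions here.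

Packages (`Pool/Agent/U508/TD`): helper606 (rescaling), helper789 (Parseval), helper873 (difference
quotients), helper123 (kinetic energy), helper59 (potential energy), helper535 (symmetrisation),
helper333 and helper212 (numbers of particles with given momentum).
-/

set_option autoImplicit false

open MeasureTheory
open scoped ENNReal

namespace Pool.Agent.Results.MP_4952d6_mp.TwoSidedDepletion

open Pool.Agent.W761.CB

/-- **Two-sided bounds on the depletion.** The definitions are those of the starting results for this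
problem (`Pool/Agent/W761/CB/Defs.lean`): `Tor 3 L` is the torus of side `L`, `el` the Euclidean norm,
`enN μ K v Ψ` the energy, `condN Ψ` the number of particles in the condensate, `IsWf2` (`IsWf`) the
(bounded) symmetric wave functions of norm one. `momN Ψ n` is the number of particles with momentum
`2 π n / L`, so `momN Ψ 0 = condN Ψ`. -/
theorem result (μ σ c R₀ : ℝ) (hμ : 0 < μ) (hσ : 0 < σ) (hσ3 : σ < 3) (hc : 0 < c)
    (v : ℝ → ℝ≥0∞) (hv : Measurable v) (hvR : ∀ r, R₀ < r → v r = 0)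
    (hv0 : ∫⁻ z : Fin 3 → ℝ, v (el z) ≠ 0) (hvf : ∫⁻ z : Fin 3 → ℝ, v (el z) ≠ ⊤) :
    ∃ c₀ C₀ ρ₀ : ℝ, 0 < c₀ ∧ 0 < C₀ ∧ 0 < ρ₀ ∧ ∀ ρ : ℝ, 0 < ρ → ρ ≤ ρ₀ →
      ∃ c₁ L₀ : ℝ, 0 < c₁ ∧
      ∀ (L : ℝ) [Fact (0 < L)] (K : (Fin 3 → ℝ) → ℝ≥0∞), L₀ ≤ L → Measurable K →
      ∫⁻ z, K z ≤ ENNReal.ofReal (c₀ * (ρ * √ρ)) →
      (∀ z, ENNReal.ofReal (c * ρ ^ (7 / 2 + 1 / 3024 : ℝ) * (1 + √ρ * el z) ^ (-(3 + σ))) ≤ K z) →
      ∀ N : ℕ, (N : ℝ) = ρ * L ^ 3 → ∀ Ψ : (Fin N → Tor 3 L) → ℂ, IsWf2 Ψ →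
      (∀ Φ : (Fin N → Tor 3 L) → ℂ, IsWf Φ →
        enN (ENNReal.ofReal μ) K v Ψ ≤ enN (ENNReal.ofReal μ) K v Φ +
          ENNReal.ofReal (c₁ * L ^ (3 - σ))) →
      (1 - ρ ^ (1 / 3024 : ℝ)) * N ≤ condN Ψ ∧ condN Ψ ≤ (1 - c₀ * √ρ) * N ∧
      ∃ F : Finset (Fin 3 → ℤ),
        (∀ n, n ∈ F ↔ n ≠ 0 ∧ (2 * Real.pi / L) ^ 2 * ∑ a, (n a : ℝ) ^ 2 ≤ C₀ * ρ) ∧
        c₀ * √ρ * N ≤ ∑ n ∈ F, Pool.Agent.U508.TD.momN Ψ n :=
  Pool.Agent.U508.TD.A.two Pool.Agent.U508.TD.scale
    (Pool.Agent.U508.TD.kin Pool.Agent.U508.TD.scale Pool.Agent.U508.TD.pars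
      Pool.Agent.U508.TD.supk)
    (Pool.Agent.U508.TD.pot Pool.Agent.U508.TD.scale)
    (Pool.Agent.U508.TD.mom Pool.Agent.U508.TD.scale) Pool.Agent.U508.TD.SYM.sym
    μ σ c R₀ hμ hσ hσ3 hc v hv hvR hv0 hvf

end Pool.Agent.Results.MP_4952d6_mp.TwoSidedDepletion
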